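import Pool.Agent.Helper19.HM.Goals

/-!
Packet HM-PRM (MP_bb32d1_al, MP_2a8fe7_al): the order of the letters does not matter modulo
shorter words.
-/

set_option autoImplicit false

open Pool.Agent.Helper19.SQ Pool.Agent.Helper19.HM

namespace Pool.Agent.Helper73.HM

noncomputable section

variable {n : ℕ} {V : Type} [AddCommGroup V] [Module ℂ V] (H : HMod n V)

theorem op_cons (a : Fin n ⊕ Fin n) (w : List (Fin n ⊕ Fin n)) :
    H.op (a :: w) = H.a a * H.op w := by
  simp [HMod.op]

theorem op_append (w w' : List (Fin n ⊕ Fin n)) : H.op (w ++ w') = H.op w * H.op w' := by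
  simp [HMod.op]

theorem G_mono (δ : V) {m m' : ℕ} (h : m ≤ m') : H.G δ m ≤ H.G δ m' := by
  unfold HMod.G
  refine Submodule.span_mono ?_
  rintro v ⟨w, hw, rfl⟩
  exact ⟨w, lt_of_lt_of_le hw h, rfl⟩

theorem op_G (δ : V) (w : List (Fin n ⊕ Fin n)) (m : ℕ) :
    ∀ v ∈ H.G δ m, H.op w v ∈ H.G δ (m + w.length) := by
  intro v hv
  unfold HMod.G at hv
  induction hv using Submodule.span_induction with
  | mem x hx =>
    obtain ⟨u, hu, rfl⟩ := hx
    refine Submodule.subset_span ⟨w ++ u, ?_, ?_⟩
    · rw [List.length_append]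
      omega
    · rw [op_append]
      rfl
  | zero =>
    rw [map_zero]
    exact zero_mem _
  | add x y _ _ hx hy =>
    rw [map_add]
    exact add_mem hx hy
  | smul c x _ hx =>
    rw [map_smul]
    exact Submodule.smul_mem _ c hx

theorem s_a (g : Equiv.Perm (Fin n)) (a : Fin n ⊕ Fin n) :
    H.s g * H.a a = H.a (Sum.map g g a) * H.s g := by
  cases a with
  | inl i => exact H.sx g i
  | inr i => exact H.sy g i

theorem s_op {δ : V} (hδ : δ ∈ H.sg) (g : Equiv.Perm (Fin n)) (w : List (Fin n ⊕ Fin n)) :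
    H.s g (H.op w δ) = ((Equiv.Perm.sign g : ℤ) : ℂ) • H.op (w.map (Sum.map g g)) δ := by
  induction w with
  | nil => exact hδ g
  | cons a w ih =>
    rw [List.map_cons, op_cons, op_cons]
    have h := congrArg (fun f : Module.End ℂ V => f (H.op w δ)) (s_a H g a)
    simp only [Module.End.mul_apply] at h ⊢
    rw [h, ih, map_smul]

theorem s_G {δ : V} (hδ : δ ∈ H.sg) (g : Equiv.Perm (Fin n)) (m : ℕ) :
    ∀ v ∈ H.G δ m, H.s g v ∈ H.G δ m := by
  intro v hv
  unfold HMod.G at hv
  induction hv using Submodule.span_induction with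
  | mem x hx =>
    obtain ⟨u, hu, rfl⟩ := hx
    rw [s_op H hδ]
    refine Submodule.smul_mem _ _ (Submodule.subset_span ⟨_, ?_, rfl⟩)
    rw [List.length_map]
    exact hu
  | zero =>
    rw [map_zero]
    exact zero_mem _
  | add x y _ _ hx hy =>
    rw [map_add]
    exact add_mem hx hy
  | smul c x _ hx =>
    rw [map_smul]
    exact Submodule.smul_mem _ c hx

theorem comm_ne {δ : V} (hδ : δ ∈ H.sg) {i j : Fin n} (hij : i ≠ j) (m : ℕ) {v : V}
    (hv : v ∈ H.G δ m) : H.y i (H.x j v) - H.x j (H.y i v) ∈ H.G δ m := by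
  have h := congrArg (fun f : Module.End ℂ V => f v) (H.yx i j hij)
  simp only [Module.End.mul_apply, LinearMap.sub_apply, LinearMap.smul_apply,
    Module.End.one_apply] at h
  rw [h]
  exact sub_mem (Submodule.smul_mem _ _ (s_G H hδ _ m v hv)) (Submodule.smul_mem _ _ hv)

theorem comm_yx {δ : V} (hδ : δ ∈ H.sg) (i j : Fin n) (m : ℕ) {v : V}
    (hv : v ∈ H.G δ m) : H.y i (H.x j v) - H.x j (H.y i v) ∈ H.G δ m := by
  by_cases hij : i = j
  · subst hij
    have h1 : H.x i = - ∑ j ∈ Finset.univ.erase i, H.x j := by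
      have h2 := Finset.add_sum_erase Finset.univ H.x (Finset.mem_univ i)
      rw [H.sumx] at h2
      exact eq_neg_of_add_eq_zero_left h2
    have h3 : H.y i (H.x i v) - H.x i (H.y i v)
        = - ∑ j ∈ Finset.univ.erase i, (H.y i (H.x j v) - H.x j (H.y i v)) := by
      rw [Finset.sum_sub_distrib, h1]
      simp only [LinearMap.neg_apply, LinearMap.sum_apply, map_neg, map_sum]
      abel
    rw [h3]
    refine neg_mem (sum_mem fun j hj => ?_)
    exact comm_ne H hδ (Finset.ne_of_mem_erase hj).symm m hv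
  · exact comm_ne H hδ hij m hv

theorem comm_a {δ : V} (hδ : δ ∈ H.sg) (a b : Fin n ⊕ Fin n) (m : ℕ) {v : V}
    (hv : v ∈ H.G δ m) : H.a a (H.a b v) - H.a b (H.a a v) ∈ H.G δ m := by
  cases a with
  | inl i =>
    cases b with
    | inl j =>
      have h := congrArg (fun f : Module.End ℂ V => f v) (H.xx i j)
      simp only [Module.End.mul_apply] at h
      have h2 : H.a (Sum.inl i) (H.a (Sum.inl j) v) - H.a (Sum.inl j) (H.a (Sum.inl i) v) = 0 :=
        sub_eq_zero.2 h
      rw [h2]
      exact zero_mem _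
    | inr j =>
      have h := neg_mem (comm_yx H hδ j i m hv)
      rw [neg_sub] at h
      exact h
  | inr i =>
    cases b with
    | inl j => exact comm_yx H hδ i j m hv
    | inr j =>
      have h := congrArg (fun f : Module.End ℂ V => f v) (H.yy i j)
      simp only [Module.End.mul_apply] at h
      have h2 : H.a (Sum.inr i) (H.a (Sum.inr j) v) - H.a (Sum.inr j) (H.a (Sum.inr i) v) = 0 :=
        sub_eq_zero.2 h
      rw [h2]
      exact zero_mem _

theorem perm_G {δ : V} (hδ : δ ∈ H.sg) {w w' : List (Fin n ⊕ Fin n)} (h : w.Perm w') :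
    H.op w δ - H.op w' δ ∈ H.G δ w.length := by
  induction h with
  | nil =>
    rw [sub_self]
    exact zero_mem _
  | cons a _ ih =>
    rw [op_cons, op_cons, Module.End.mul_apply, Module.End.mul_apply, ← map_sub]
    have h2 := op_G H δ [a] _ _ ih
    rw [op_cons] at h2
    simpa [HMod.op] using h2
  | swap a b l =>
    rw [op_cons, op_cons, op_cons, op_cons, Module.End.mul_apply, Module.End.mul_apply,
      Module.End.mul_apply, Module.End.mul_apply]
    have h1 : H.op l δ ∈ H.G δ (l.length + 1) :=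
      Submodule.subset_span ⟨l, Nat.lt_succ_self _, rfl⟩
    refine G_mono H δ ?_ (comm_a H hδ b a _ h1)
    simp
  | trans h1 _ ih1 ih2 =>
    rw [← h1.length_eq] at ih2
    have h3 := add_mem ih1 ih2
    rw [sub_add_sub_cancel] at h3
    exact h3

end

/-- **HM-PRM**. -/
theorem c_prm : S_PRM := by
  intro n V _ _ H δ _ hδ
  exact ⟨fun m m' h => G_mono H δ h, fun w m v hv => op_G H δ w m v hv,
    fun g w => s_op H hδ g w, fun g m v hv => s_G H hδ g m v hv,
    fun w w' h => perm_G H hδ h⟩

end Pool.Agent.Helper73.HM
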